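import Pool.Agent.LeoG.UpStmts

/-!
Squad LEOG, module VOL: volume of a region of cubic forms over all real places.
-/

set_option autoImplicit false

open MeasureTheory Set

namespace Pool.Agent.LeoG.H43V

open Pool.Agent.LeoK Pool.Agent.LeoG

theorem meas_mm : Measurable fun w : Fin 4 → ℝ => mm w := by
  unfold mm dsc
  fun_prop

theorem meas_gval : Measurable fun w : Fin 4 → ℝ => gval w 1 0 := by
  unfold gval
  fun_prop

theorem meas_gcov : Measurable fun w : Fin 4 → ℝ => gcov w 1 0 := by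
  unfold gcov
  fun_prop

theorem meas_hz : Measurable fun w : Fin 4 → ℝ => hz w 1 0 := by
  have hsqrt : Measurable Real.sqrt := Real.continuous_sqrt.measurable
  have h1 : Measurable fun w : Fin 4 → ℝ => gcov w 1 0 / Real.sqrt (27 * mm w) :=
    meas_gcov.div (hsqrt.comp (meas_mm.const_mul 27))
  have h2 : Measurable fun w : Fin 4 → ℝ =>
      |(gval w 1 0 + gcov w 1 0 / Real.sqrt (27 * mm w)) / 2| ^ (2 / 3 : ℝ) :=
    (measurable_norm.comp ((meas_gval.add h1).div_const 2)).pow_const _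
  have h3 : Measurable fun w : Fin 4 → ℝ =>
      |(gval w 1 0 - gcov w 1 0 / Real.sqrt (27 * mm w)) / 2| ^ (2 / 3 : ℝ) :=
    (measurable_norm.comp ((meas_gval.sub h1).div_const 2)).pow_const _
  have h4 : Measurable fun w : Fin 4 → ℝ => 2 * (mm w / 27) ^ (1 / 6 : ℝ) :=
    ((meas_mm.div_const 27).pow_const _).const_mul 2
  exact (h2.add h3).div h4

/-- the map -/
noncomputable def psi (w : Fin 4 → ℝ) : ℝ × ℝ × ℝ := (w 1 / (3 * w 0), hz w 1 0, mm w)

theorem meas_psi : Measurable psi :=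
  Measurable.prodMk (by fun_prop) (Measurable.prodMk meas_hz meas_mm)

/-- the source -/
def S0 : Set (Fin 4 → ℝ) := {w | w 0 ≠ 0 ∧ 0 < mm w}

/-- the target -/
def T0 : Set (ℝ × ℝ × ℝ) := {u | 0 < u.2.1 ∧ 0 < u.2.2}

theorem meas_S0 : MeasurableSet S0 := by
  have h0 : MeasurableSet {w : Fin 4 → ℝ | w 0 = 0} :=
    measurableSet_eq_fun (measurable_pi_apply 0) measurable_const
  exact h0.compl.inter (measurableSet_lt measurable_const meas_mm)

theorem meas_T0 : MeasurableSet T0 :=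
  (measurableSet_lt measurable_const (measurable_fst.comp measurable_snd)).inter
    (measurableSet_lt measurable_const (measurable_snd.comp measurable_snd))

theorem mp_psi (hPsh : LeoG.PshStmt) : MeasurePreserving psi (volume.restrict S0)
    (ENNReal.ofReal Real.pi • (volume.restrict T0)) := by
  refine ⟨meas_psi, ?_⟩
  ext E hE
  have h1 := hPsh (E.indicator 1) (measurable_one.indicator hE)
  rw [Measure.map_apply meas_psi hE, Measure.smul_apply, smul_eq_mul]
  have h2 : (∫⁻ w : Fin 4 → ℝ in {w | w 0 ≠ 0 ∧ 0 < mm w},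
      (E.indicator 1 : ℝ × ℝ × ℝ → ENNReal) (w 1 / (3 * w 0), hz w 1 0, mm w)) =
      (volume.restrict S0) (psi ⁻¹' E) := by
    rw [← lintegral_indicator_one (meas_psi hE)]
    rfl
  have h3 : (∫⁻ u : ℝ × ℝ × ℝ in {u | 0 < u.2.1 ∧ 0 < u.2.2},
      (E.indicator 1 : ℝ × ℝ × ℝ → ENNReal) u * ENNReal.ofReal Real.pi) =
      ENNReal.ofReal Real.pi * (volume.restrict T0) E := by
    rw [lintegral_mul_const' _ _ ENNReal.ofReal_ne_top, mul_comm, ← lintegral_indicator_one hE]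
    rfl
  rw [← h2, h1, h3]

instance sf1 : SigmaFinite (ENNReal.ofReal Real.pi • ((volume : Measure (ℝ × ℝ × ℝ)).restrict T0)) := by
  have h : ENNReal.ofReal Real.pi • ((volume : Measure (ℝ × ℝ × ℝ)).restrict T0) =
      (Real.toNNReal Real.pi) • ((volume : Measure (ℝ × ℝ × ℝ)).restrict T0) := rfl
  rw [h]
  infer_instance

theorem pi_smul_restrict (σ : Type) [Fintype σ] :
    Measure.pi (fun _ : σ => ENNReal.ofReal Real.pi •
      ((volume : Measure (ℝ × ℝ × ℝ)).restrict T0)) =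
      (ENNReal.ofReal Real.pi ^ Fintype.card σ) •
        (volume : Measure (σ → ℝ × ℝ × ℝ)).restrict (univ.pi fun _ => T0) := by
  refine Measure.pi_eq fun s hs => ?_
  rw [Measure.smul_apply, volume_pi, Measure.restrict_pi_pi, Measure.pi_pi, smul_eq_mul]
  simp only [Measure.smul_apply, smul_eq_mul]
  rw [Finset.prod_mul_distrib, Finset.prod_const, Finset.card_univ]

/-- VOL -/
theorem vol (hPsh : LeoG.PshStmt) : LeoG.VolStmt := by
  intro σ _ G A M hG hA hM hA0 hM0
  obtain ⟨T', hT'⟩ : ∃ T' : Set (σ → ℝ × ℝ × ℝ), T' = {u | (fun s => (u s).1) ∈ G ∧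
    (fun s => (u s).2.1) ∈ A ∧ (fun s => (u s).2.2) ∈ M} := ⟨_, rfl⟩
  obtain ⟨T2, hT2⟩ : ∃ T2 : Set (σ → ℝ × ℝ), T2 = {u | (fun s => (u s).1) ∈ A ∧
    (fun s => (u s).2) ∈ M} := ⟨_, rfl⟩
  have e1 := MeasureTheory.volume_measurePreserving_arrowProdEquivProdArrow ℝ (ℝ × ℝ) σ
  have e2 := MeasureTheory.volume_measurePreserving_arrowProdEquivProdArrow ℝ ℝ σ
  have hT2' : T2 = (MeasurableEquiv.arrowProdEquivProdArrow ℝ ℝ σ) ⁻¹' (A ×ˢ M) := by
    rw [hT2]
    rfl
  have hT1' : T' = (MeasurableEquiv.arrowProdEquivProdArrow ℝ (ℝ × ℝ) σ) ⁻¹' (G ×ˢ T2) := by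
    rw [hT', hT2]
    rfl
  have hT2m : MeasurableSet T2 := by
    rw [hT2']
    exact (MeasurableEquiv.arrowProdEquivProdArrow ℝ ℝ σ).measurable (hA.prod hM)
  have hTm : MeasurableSet T' := by
    rw [hT1']
    exact (MeasurableEquiv.arrowProdEquivProdArrow ℝ (ℝ × ℝ) σ).measurable (hG.prod hT2m)
  have hvT2 : volume T2 = volume A * volume M := by
    rw [hT2', e2.measure_preimage (hA.prod hM).nullMeasurableSet]
    exact Measure.prod_prod A M
  have hvT : volume T' = volume G * (volume A * volume M) := by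
    rw [hT1', e1.measure_preimage (hG.prod hT2m).nullMeasurableSet, ← hvT2]
    exact Measure.prod_prod G T2
  have hmp := measurePreserving_pi (fun _ : σ => (volume : Measure (Fin 4 → ℝ)).restrict S0)
    (fun _ : σ => ENNReal.ofReal Real.pi • ((volume : Measure (ℝ × ℝ × ℝ)).restrict T0))
    (f := fun _ => psi) (fun _ => mp_psi hPsh)
  have h1 := hmp.measure_preimage hTm.nullMeasurableSet
  rw [pi_smul_restrict, Measure.smul_apply, Measure.restrict_apply hTm, smul_eq_mul] at h1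
  have hsub : T' ∩ (univ.pi fun _ => T0) = T' := by
    refine inter_eq_left.2 fun u hu s _ => ?_
    rw [hT'] at hu
    exact ⟨hA0 _ hu.2.1 s, hM0 _ hu.2.2 s⟩
  rw [hsub, hvT] at h1
  rw [← Measure.restrict_pi_pi, Measure.restrict_apply
    (hmp.measurable hTm : MeasurableSet ((fun (a : σ → Fin 4 → ℝ) (i : σ) => psi (a i)) ⁻¹' T'))] at h1
  have h2 : {w : σ → Fin 4 → ℝ | (∀ s, w s 0 ≠ 0) ∧ (∀ s, 0 < mm (w s)) ∧
        (fun s => w s 1 / (3 * w s 0)) ∈ G ∧ (fun s => hz (w s) 1 0) ∈ A ∧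
        (fun s => mm (w s)) ∈ M} =
      ((fun (a : σ → Fin 4 → ℝ) (i : σ) => psi (a i)) ⁻¹' T') ∩ (univ.pi fun _ => S0) := by
    ext w
    rw [hT']
    constructor
    · rintro ⟨h1, h3, h4, h5, h6⟩
      exact ⟨⟨h4, h5, h6⟩, fun s _ => ⟨h1 s, h3 s⟩⟩
    · rintro ⟨⟨h4, h5, h6⟩, h⟩
      exact ⟨fun s => (h s (mem_univ s)).1, fun s => (h s (mem_univ s)).2, h4, h5, h6⟩
  rw [h2, volume_pi, h1, ENNReal.ofReal_pow Real.pi_pos.le]
  ring

end Pool.Agent.LeoG.H43V
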